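import Pool.Agent.T9h48.Form

/-!
# Real zeros of sums of products of polynomials in few powers of `x`

Let `U = ∏ j, (G_j (x ^ e_j)) ^ α_j` and `V = ∏ j, (G_j (x ^ e_j)) ^ β_j`, where the `G_j` are real
polynomials, and only the exponents in a set `E` occur among the `e_j`. We show that a sum of `k`
products `c_i U ^ i V ^ (k - 1 - i)`, for instance (`k = 2`) a sum of two arbitrary products of the
`G_j (x ^ e_j)`, has at most `k * 2 ^ (|E| + 3) * (T + 1)` different real zeros, where `T` is the sum
of the degrees of the `G_j`. Neither the exponents `e_j` nor the multiplicities `α_j`, `β_j` enter.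

Proof. By Rolle's theorem it suffices to count the positive zeros of a sum of real rational
functions `F = ∑ R_j (x ^ e_j)` (the logarithmic derivative of `U / V`). If `d` is the largest
exponent, the terms with `e_j = d` are real on the ray with the angle `π / d`, so on this ray the
imaginary part of `F` is a sum of the same kind with fewer exponents and twice the degrees. The number
of zeros of `F` in the sector is at most the number of its poles there (at most `T`) plus the number
of zeros of this imaginary part on the ray plus one, since the argument of `F` on the ray can only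
change by `π` between two zeros of the imaginary part. Induction on the number of exponents.
-/

set_option autoImplicit false

open Polynomial

namespace Pool.Agent.T9h48.Moved.FewPowers

/-- **Real zeros of sums of products of polynomials in few powers of the variable.** -/
theorem result {ι : Type} [Fintype ι] (G : ι → ℝ[X]) (e : ι → ℕ) (he : ∀ j, 0 < e j)
    (E : Finset ℕ) (hE : ∀ j, e j ∈ E) (α β : ι → ℕ) (k : ℕ) (c : ℕ → ℝ) :
    (∑ i ∈ Finset.range k, C (c i) * (∏ j, ((G j).comp (X ^ e j)) ^ α j) ^ i *
        (∏ j, ((G j).comp (X ^ e j)) ^ β j) ^ (k - 1 - i)).roots.toFinset.card ≤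
      k * (2 ^ (E.card + 3) * (∑ j, (G j).natDegree + 1)) := by
  classical
  have h : ∀ γ : ι → ℕ, (∏ j, ((G j).comp (X ^ e j)) ^ γ j) =
      Pool.Agent.T9h48.prd e G γ Finset.univ := by
    intro γ
    unfold Pool.Agent.T9h48.prd
    exact Finset.prod_congr rfl fun j _ => by rw [expand_eq_comp_X_pow]
  rw [h, h]
  refine Pool.Agent.T9h48.card_form_le _ _ _ ?_ k c
  intro a b
  have h1 := Pool.Agent.T9h48.card_two_le (G := G) (α := α) (β := β) (S := Finset.univ)
    (a := a) (b := b) (e := e) (fun j _ => he j)
    (fun T => (2 ^ (E.card + 1) - 1) * T + E.card)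
    (fun x y hxy => Nat.add_le_add_right (Nat.mul_le_mul_left _ hxy) _)
    (fun S' _ P K hK => Pool.Agent.T9h48.pos_num_le_two_pow E.card e P K S' hK
      (Finset.card_le_card (Finset.image_subset_iff.2 fun j _ => hE j)))
  refine h1.trans ?_
  have e1 : Pool.Agent.T9h48.tdeg G Finset.univ = ∑ j, (G j).natDegree := rfl
  rw [e1]
  set T := ∑ j, (G j).natDegree
  have h2 : E.card + 1 < 2 ^ (E.card + 1) := Nat.lt_two_pow_self
  have h3 : 2 ^ (E.card + 3) = 4 * 2 ^ (E.card + 1) := by ring
  rw [h3]
  set p := 2 ^ (E.card + 1)
  obtain ⟨q, hq⟩ : ∃ q, p = q + 1 := ⟨p - 1, by omega⟩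
  rw [hq, Nat.add_sub_cancel]
  nlinarith [Nat.zero_le (q * T)]

end Pool.Agent.T9h48.Moved.FewPowers
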