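import Pool.Agent.T9h48.TSP.ExactMain

/-!
# The dynamic program of Held and Karp is almost optimal for planar Euclidean instances

The algorithm of Held and Karp solves the travelling salesman problem with about `n ^ 2 * 2 ^ n`
additions and minima of the distances, it is a `(min, +)` circuit. Jerrum and Snir proved that no
`(min, +)` circuit can do much better if the distances are arbitrary numbers. We prove this for the
exact planar Euclidean problem, where the distances come from `n` points of `{0, …, 4 n ^ 2}²`:
a `(min, +)` circuit for it has at least `C(n, n / 2) / (2 n)` addition gates, which is
`2 ^ n` up to a polynomial factor.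

Proof. We put the points in the cyclic order `σ` on an almost equilateral convex lattice polygon.
All formal monomials of small weight cross all cuts twice, and this forces the monomial of the
instance `σ` to be exactly the boundary cycle. It passes through an addition gate both operands of
which contribute at most `⌈n / 2⌉` edges, but more together; this splits the cycle in three parts.
The parts of the `σ` through the same gate are exchangeable: any three parts of different instances
form a Hamiltonian cycle. Families `𝒜₁`, `𝒜₂`, `𝒜₃` with this property and with at most `⌈n / 2⌉`
edges in each set satisfy `|𝒜₁| |𝒜₂| |𝒜₃| ≤ ⌊n / 2⌋! ⌈n / 2⌉!` (`rect_bound`). To see this we first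
suppress the vertices whose two edges are in the same part. Then a cycle is explored from one vertex
in both directions: the sets of possible next vertices at the two ends are disjoint, since the two
steps are taken in different parts and can be chosen independently.
-/

set_option autoImplicit false

namespace Pool.Agent.T9h48.Moved.HeldKarpOptimal

open Pool.Agent.T9h48.SC Pool.Agent.T9h48.TSP

/-- **The lower bound for pure dynamic programming**: a `(min, +)` circuit which yields the length
of a shortest tour for all `n ≥ 8` distinct points of `{0, …, 4 n ^ 2}²` has at least
`C(n, n / 2) / (2 n)` addition gates. -/
theorem result (n : ℕ) (hn : 8 ≤ n) (C : TropCircuit (Fin n × Fin n))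
    (hC : Solves C (4 * n ^ 2) 1) : n.choose (n / 2) ≤ 2 * n * C.numAdd := by
  obtain ⟨m, rfl⟩ : ∃ m, n = m + 1 := ⟨n - 1, by omega⟩
  have h := exact_bound (by omega) C hC
  rwa [show (m + 1).choose ((m + 1) / 2) = (m + 1).choose ((m + 2) / 2) by
    rw [← Nat.choose_symm (show (m + 2) / 2 ≤ m + 1 by omega)]
    congr 1
    omega]

end Pool.Agent.T9h48.Moved.HeldKarpOptimal
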