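import Pool.Agent.T9h48.TSP.Asymp

/-!
# Pure dynamic programming cannot even approximate the planar travelling salesman problem

A pure dynamic program, one whose recursion uses only the operations `min` and `+` on the exact
distances (such as the algorithm of Held and Karp), is a `(min, +)` circuit whose variables are the
distances of the pairs of points. We show that for `n ≥ 10 ^ 6` such a program with fewer than
`1.02 ^ n` additions cannot compute the length of a shortest tour of `n` points of the plane, not
even within the factor `1.001`, and even if all coordinates are integers between `0` and `3 n ^ 2`.

Proof. Every light formal monomial `M` that the circuit produces is a multigraph on the `n` points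
which crosses every cut at least twice (take two far away clusters). Now put the `n` points in the
cyclic order `σ` on the lattice points of the boundary of a `2 × (n / 2 - 2)` rectangle. The monomial
`M_σ` which yields the value is almost the boundary cycle of `σ`. It goes through an operand of an
addition gate that contributes between `τ` and `2 τ` of its edges, and this splits `M_σ = A_σ + B_σ`.
For the `σ` which go through the same operand, all `A_σ + B_σ'` are produced; so the degrees of the
`A_σ` are the same at almost all points, and `σ` respects, up to few mistakes, the partition of the
points into those where the boundary cycle goes on inside of `A_σ` and the others. Only an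
exponentially small fraction of the orders `σ` does this.
-/

set_option autoImplicit false

namespace Pool.Agent.Results.MP_e361f4_lc.PureDPApproximation

open Pool.Agent.T9h48.SC Pool.Agent.T9h48.TSP

/-- **Pure dynamic programming for the planar travelling salesman problem**: a `(min, +)` circuit
which for all `n` distinct points of `{0, …, 3 n ^ 2}²` yields the length of a shortest tour up to
the factor `1.001` has at least `1.02 ^ n` addition gates. -/
theorem result (n : ℕ) (hn : 1000000 ≤ n) (C : TropCircuit (Fin n × Fin n))
    (hC : Solves C (3 * n ^ 2) (1 + 1 / 1000)) : (1.02 : ℝ) ^ n ≤ C.numAdd :=
  pure_dp hn C hC

end Pool.Agent.Results.MP_e361f4_lc.PureDPApproximation
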