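import Pool.Agent.T9h48.SC.Ordered
import Pool.Agent.T9h48.SC.Depth3
import Pool.Agent.T9h48.SC.CardSmall

/-!
# The Set Cover Conjecture for sequential algebraic algorithms with cancellations

We consider algorithms which go once through all sets `A_1, …, A_N` with at most `s` elements, in an
order of their choice, and update a state vector in `K ^ w` by a linear map which depends on the
position `j` and on whether `A_j` is a member of the family `F`; at the end they apply a linear form.
Here `K` is any field, so that cancellations are possible. (These are read-once algebraic branching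
programs in any order. Special cases are the sequential dynamic programs which count covers, weighted
decision diagrams, and the algorithms which assign to each set an element of an associative algebra
of dimension `w` and evaluate a linear form at the product, such as group algebras or exterior
algebras.) We prove that the state space has dimension `w > β ^ n n ^ c` for every `β < 2` if the result
is nonzero exactly for the families of `⌈n / s⌉` sets which cover `[n]`, where `s` depends on `β` only.

Proof. For each of the partitions of `[n]` into transversals of `s` columns of size `q` (and a rest) there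
is a time at which exactly one half of the transversals have been read. One time is good for a
fraction `1 / (N + 1)` of the partitions. The parts of the columns which are covered up to this time
take at least `binom(q, q / 2) ^ (s - 1) / (N + 1)` different values, and they give a diagonal submatrix
with nonzero diagonal entries of the matrix whose entries are the results for the first part of the
input (rows) and the second part (columns). The rank of this matrix is at most `w`.
-/

set_option autoImplicit false

open Filter

namespace Pool.Agent.T9h48.Moved.SequentialAlgebraicDP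

open Pool.Agent.T9h48.SC

/-- **The Set Cover Conjecture for read-once algebraic branching programs in any order.** The sets
with at most `s` elements are enumerated by `A`, the transition matrices are `M j true` if `A j` is in
the family and `M j false` otherwise, and `roVal M u v x` is the value
`uᵀ (M 0 (x 0)) (M 1 (x 1)) ⋯ v`. -/
theorem result (β : ℝ) (hβ0 : 0 ≤ β) (hβ : β < 2) :
    ∃ s : ℕ, 0 < s ∧ ∀ c : ℕ, ∀ᶠ n : ℕ in atTop, ∀ (K : Type) [Field K] (N w : ℕ)
      (A : Fin N ≃ {B : Finset (Fin n) // B.card ≤ s})
      (M : Fin N → Bool → Matrix (Fin w) (Fin w) K) (u v : Fin w → K),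
      (∀ F : Finset (Finset (Fin n)), (∀ B ∈ F, B.card ≤ s) → F.card = (n + s - 1) / s →
        (roVal M u v (fun i => decide ((A i).1 ∈ F)) ≠ 0 ↔ ∀ x, ∃ B ∈ F, x ∈ B)) →
      β ^ n * (n : ℝ) ^ c < w := by
  set β' : ℝ := max β 1 with hβ'
  have hβ1 : 1 ≤ β' := le_max_right _ _
  have hββ : β ≤ β' := le_max_left _ _
  have hβ2 : β' < 2 := max_lt hβ (by norm_num)
  obtain ⟨t, ht⟩ := exists_base hβ1 hβ2
  refine ⟨t + 1, Nat.succ_pos t, fun c => ?_⟩
  filter_upwards [ht (c + (2 * t + (2 * (t + 1) + 1))), eventually_ge_atTop 2]
    with n hn hn2 K _ N w A M u v hM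
  set q := n / (t + 1) with hqdef
  have htq : (t + 1) * q ≤ n := Nat.mul_div_le _ _
  have hqn : q ≤ n := Nat.div_le_self _ _
  have hk : (n + (t + 1) - 1) / (t + 1) = q + if restN n t q = ∅ then 0 else 1 := by
    have h2 := Nat.div_add_mod n (t + 1)
    have h3 : n % (t + 1) < t + 1 := Nat.mod_lt n (Nat.succ_pos t)
    rw [← hqdef] at h2
    split_ifs with h4
    · have h5 : n % (t + 1) = 0 := by
        by_contra h6
        have h7 : (t + 1) * q < n := by omega
        have h8 : (⟨(t + 1) * q, h7⟩ : Fin n) ∈ restN n t q :=
          Finset.mem_filter.2 ⟨Finset.mem_univ _, le_rfl⟩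
        rw [h4] at h8
        exact absurd h8 (Finset.notMem_empty _)
      rw [add_zero]
      apply Nat.div_eq_of_lt_le
      · rw [mul_comm]; omega
      · rw [Nat.add_mul, mul_comm q, one_mul]; omega
    · have h5 : (t + 1) * q < n := by
        obtain ⟨u, hu⟩ := Finset.nonempty_iff_ne_empty.2 h4
        have h6 := (Finset.mem_filter.1 hu).2
        have h7 := u.2
        omega
      apply Nat.div_eq_of_lt_le
      · rw [Nat.add_mul, mul_comm q, one_mul]; omega
      · rw [Nat.add_mul, Nat.add_mul, mul_comm q, one_mul]; omega
  have h1 := ordered_bound A (grid_gridN htq) (card_restN_le n t) hk (Nat.div_le_self q 2) M u v hM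
  have h2 := two_pow_le_middle q
  have hN : N ≤ (n + 1) ^ (t + 1) := by
    have h3 := Fintype.card_congr A
    rw [Fintype.card_fin] at h3
    rw [h3]
    exact card_small_le n (t + 1)
  have hnr : (2 : ℝ) ≤ n := by exact_mod_cast hn2
  have h3 : (2 : ℝ) ^ (q * t) ≤ (n : ℝ) ^ (2 * t + (2 * (t + 1) + 1)) * w := by
    have e1 : (2 ^ q) ^ t ≤ (q + 1) ^ t * ((N + 1) * w) := by
      calc (2 ^ q) ^ t ≤ ((q + 1) * q.choose (q / 2)) ^ t := Nat.pow_le_pow_left h2 t
        _ = (q + 1) ^ t * (q.choose (q / 2)) ^ t := mul_pow _ _ _
        _ ≤ _ := Nat.mul_le_mul_left _ h1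
    have e2 : (q + 1) ^ t ≤ n ^ (2 * t) := by
      rw [pow_mul]
      refine Nat.pow_le_pow_left ?_ t
      nlinarith
    have e3 : N + 1 ≤ n ^ (2 * (t + 1) + 1) := by
      have e4 : (n + 1) ^ (t + 1) ≤ n ^ (2 * (t + 1)) := by
        rw [pow_mul]
        refine Nat.pow_le_pow_left ?_ _
        nlinarith
      have e5 : 1 ≤ n ^ (2 * (t + 1)) := Nat.one_le_pow _ _ (by omega)
      rw [pow_succ]
      nlinarith
    have e6 : (2 ^ q) ^ t ≤ n ^ (2 * t + (2 * (t + 1) + 1)) * w := by
      calc (2 ^ q) ^ t ≤ (q + 1) ^ t * ((N + 1) * w) := e1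
        _ ≤ n ^ (2 * t) * (n ^ (2 * (t + 1) + 1) * w) :=
          Nat.mul_le_mul e2 (Nat.mul_le_mul_right _ e3)
        _ = _ := by rw [pow_add]; ring
    rw [← pow_mul] at e6
    exact_mod_cast e6
  have hpos : (0 : ℝ) < (n : ℝ) ^ (2 * t + (2 * (t + 1) + 1)) := by positivity
  refine lt_of_mul_lt_mul_left (a := (n : ℝ) ^ (2 * t + (2 * (t + 1) + 1))) ?_ hpos.le
  calc (n : ℝ) ^ (2 * t + (2 * (t + 1) + 1)) * (β ^ n * (n : ℝ) ^ c)
      ≤ (n : ℝ) ^ (2 * t + (2 * (t + 1) + 1)) * (β' ^ n * (n : ℝ) ^ c) :=
        mul_le_mul_of_nonneg_left (mul_le_mul_of_nonneg_right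
          (pow_le_pow_left₀ hβ0 hββ n) (by positivity)) hpos.le
    _ = β' ^ n * (n : ℝ) ^ (c + (2 * t + (2 * (t + 1) + 1))) := by rw [pow_add]; ring
    _ < 2 ^ (q * t) := hn
    _ ≤ _ := h3

end Pool.Agent.T9h48.Moved.SequentialAlgebraicDP
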