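import Pool.Agent.T9h48.Count3

/-!
# Real zeros of sparse polynomials plus rational functions of few powers of `x`

Let `f` be a real polynomial with `t` monomials and let `P_j`, `Q_j` be real polynomials with
`deg P_j ≤ deg Q_j + p`. Let `e_j` be exponents from a set `E`, with `deg f ≤ Λ e_j` for all `j`.
We show that the sum of products

`f * ∏ j, Q_j (x ^ e_j) + ∑ j, P_j (x ^ e_j) * ∏ i ≠ j, Q_i (x ^ e_i)`,

the numerator of `f + ∑ j, (P_j / Q_j) (x ^ e_j)`, has at most
`2 * (2 ^ (|E| + 1) * T + |E| * (Λ + p + 1) + t) + 1` different real zeros, where `T` is the sum of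
the degrees of the `Q_j`. For one exponent `N` these are the polynomials
`f (x) A (x ^ N) + B (x ^ N)`.

Proof. Let `F = f + ∑ j, (P_j / Q_j) (x ^ e_j)` and let `d` be the largest exponent. The terms with
`e_j = d` are real on the ray with the angle `π / d`, so on this ray the imaginary part of `F` is a
sum of the same kind with fewer exponents, the polynomial `f` being replaced by another one with
the same exponents, and the denominators having twice the degree. The argument of `F` on the ray
can only change by `π` between two zeros of the imaginary part. Hence the number of zeros of `F` in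
the sector is at most the number of its poles there (at most `T`), plus the contribution
`Λ + p` of the growth at infinity and at zero, plus the number of zeros of the imaginary part, plus
one. Induction on the number of exponents; at the end Descartes' rule.
-/

set_option autoImplicit false

open Polynomial

namespace Pool.Agent.T9h48.Moved.SparsePlusPowers

/-- **Real zeros of a sparse polynomial plus rational functions of few powers.** -/
theorem result {ι : Type} [Fintype ι] [DecidableEq ι] (f : ℝ[X]) (P Q : ι → ℝ[X]) (e : ι → ℕ)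
    (he : ∀ j, 0 < e j) (E : Finset ℕ) (hE : ∀ j, e j ∈ E) (p Λ : ℕ) (hQ : ∀ j, Q j ≠ 0)
    (hP : ∀ j, (P j).natDegree ≤ (Q j).natDegree + p) (hf : ∀ j, f.natDegree ≤ Λ * e j) :
    (f * ∏ j, (Q j).comp (X ^ e j) +
      ∑ j, (P j).comp (X ^ e j) *
        ∏ i ∈ Finset.univ.erase j, (Q i).comp (X ^ e i)).roots.toFinset.card ≤
      2 * (2 ^ (E.card + 1) * ∑ j, (Q j).natDegree + E.card * (Λ + p + 1) + f.support.card) +
        1 := by
  have h : (f * ∏ j, (Q j).comp (X ^ e j) +
      ∑ j, (P j).comp (X ^ e j) * ∏ i ∈ Finset.univ.erase j, (Q i).comp (X ^ e i)) =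
      Pool.Agent.T9h48.numF f e P Q Finset.univ := by
    unfold Pool.Agent.T9h48.numF Pool.Agent.T9h48.num Pool.Agent.T9h48.den
    simp only [expand_eq_comp_X_pow]
  rw [h]
  have hadm : Pool.Agent.T9h48.Adm e P Q Finset.univ p :=
    ⟨fun j _ => he j, fun j _ => hQ j, fun j _ => hP j⟩
  have hcard : (Finset.univ.image e).card ≤ E.card :=
    Finset.card_le_card (Finset.image_subset_iff.2 fun j _ => hE j)
  have h1 := Pool.Agent.T9h48.pos_numF_le_two_pow E.card f e P Q Finset.univ p Λ f.support.card
    hadm hcard le_rfl (fun j _ => hf j)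
  have h2 := Pool.Agent.T9h48.pos_numF_le_two_pow E.card (f.comp (-X)) e _ _ Finset.univ p Λ
    f.support.card hadm.refl hcard (Pool.Agent.T9h48.card_support_comp_neg f)
    (fun j _ => by rw [Pool.Agent.T9h48.natDegree_comp_neg]; exact hf j)
  rw [← Pool.Agent.T9h48.numF_comp_neg, Pool.Agent.T9h48.tdeg_refl] at h2
  have h3 := Pool.Agent.T9h48.card_roots_le (Pool.Agent.T9h48.numF f e P Q Finset.univ)
  have e1 : Pool.Agent.T9h48.tdeg Q Finset.univ = ∑ j, (Q j).natDegree := rfl
  rw [e1] at h1 h2
  set T := ∑ j, (Q j).natDegree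
  have h4 : (2 ^ (E.card + 1) - 1) * T ≤ 2 ^ (E.card + 1) * T :=
    Nat.mul_le_mul_right _ (Nat.sub_le _ _)
  omega

end Pool.Agent.T9h48.Moved.SparsePlusPowers
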